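import Mathlib
import Pool.Agent.Helper71.GonDefs
import Pool.Agent.Helper71.RestrDef
import Pool.Agent.Helper71.Assemble
import Pool.Agent.Helper71.Moore

/-!
# Gonality of preimages of lines under maps of minimal degree

For every prime `p` and every infinite perfect field `k` of characteristic `p` we give a nice
surface `X` over `k` and a dominant rational map `ψ` from `X` to the projective plane, of minimal
degree `p`, such that for every line `L` in a nonempty Zariski open subset of the dual plane the
closure of the preimage of `L` is an integral curve of gonality one, although `ψ` restricts to a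
map of degree `p` from this curve onto its image.
The surface is `∑ x_i y_i^p = ∑ x_i^p y_i = 0` in the product of two projective planes, and `ψ` is
the first projection, which is purely inseparable of degree `p`.
-/

namespace Pool.Agent.Results.MP_83f7cc_ag.GonalityDrop

open AlgebraicGeometry CategoryTheory MvPolynomial
open Pool.Agent.Helper71

universe u

attribute [local instance] MvPolynomial.gradedAlgebra

/-- In every positive characteristic there is a nice surface `X` with a dominant rational map `ψ`
to the plane of minimal degree `p`, such that the preimage of a general line has gonality one. -/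
theorem result (p : ℕ) [Fact p.Prime] (k : Type u) [Field k] [CharP k p] [PerfectField k]
    [Infinite k] :
    ∃ (X : Scheme.{u}) (s : X ⟶ Spec (.of k)) (_ : IsIntegral X) (ψ : X.RationalMap (PP k 2)),
      IsNice 2 s ∧ IsDomRat s ψ ∧ ratDegree ψ = p ∧
      (∀ φ : X.RationalMap (PP k 2), IsDomRat s φ → ratDegree ψ ≤ ratDegree φ) ∧
      ∃ G : MvPolynomial (Fin 3) k, G.IsHomogeneous (1 + p ^ 2 + p ^ 4) ∧
        (∃ c : Fin 3 → k, eval c G ≠ 0) ∧
        ∀ c : Fin 3 → k, eval c G ≠ 0 →
          ∃ (D : Scheme.{u}) (_ : IsIntegral D) (j : D ⟶ X), IsClosedImmersion j ∧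
            Set.range j = preimageClosure ψ (line k c) ∧
            (∃ χ : D.RationalMap (PP k 2), IsRestriction j ψ χ ∧ ratDegree χ = p) ∧
            gonality (j ≫ s) = 1 := by
  obtain ⟨X, s, hX, ψ, h1, h2, h3, h4, h5⟩ := main_aux p k
  refine ⟨X, s, hX, ψ, h1, h2, h3, h4, moore k p,
    moore_homogeneous k p, exists_moore k p, ?_⟩
  intro c hc
  exact h5 c (moore_coord p (Fact.out : p.Prime).ne_zero c hc)
    (fun K _ _ x hx h0 => moore_key p c hc x hx h0)

end Pool.Agent.Results.MP_83f7cc_ag.GonalityDrop
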